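import Pool.Agent.Helper43.Fr.Goals

/-!
# Packet TWOA (MP_c866d3_nt)
-/

namespace Pool.Agent.Helper43.Fr.PkTwoa

open scoped PowerSeries Polynomial

noncomputable section

/-- `q1` over a ring -/
def Q1 {R : Type*} [CommRing R] (x : R) : R := 28 * x ^ 3 - 42 * x ^ 2 + 22 * x - 4

/-- derivative of `q1` -/
def Q1' {R : Type*} [CommRing R] (x : R) : R := 84 * x ^ 2 - 84 * x + 22

/-- `q2` over a ring -/
def Q2 {R : Type*} [CommRing R] (x : R) : R := 128 * x ^ 3 - 384 * x ^ 2 + 352 * x - 96

/-- derivative of `q2` -/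
def Q2' {R : Type*} [CommRing R] (x : R) : R := 384 * x ^ 2 - 768 * x + 352

theorem coeff_thP {R : Type*} [CommRing R] (f : R[X]) (n : ℕ) :
    (thP f).coeff n = n * f.coeff n := by
  unfold thP
  rw [Derivation.smul_apply, smul_eq_mul]
  change (Polynomial.X * Polynomial.derivative f).coeff n = _
  cases n with
  | zero => simp
  | succ n =>
    rw [Polynomial.coeff_X_mul, Polynomial.coeff_derivative]
    push_cast
    ring

theorem coeff_Lop_add_two {R : Type*} [CommRing R] (f : R[X]) (n : ℕ) :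
    (Lop f).coeff (n + 2) = ((n : R) + 2) ^ 3 * f.coeff (n + 2)
      - Q1 ((n : R) + 2) * f.coeff (n + 1) - Q2 ((n : R) + 2) * f.coeff n := by
  have h : Lop f = thP (thP (thP f))
      - Polynomial.X * (28 * thP (thP (thP f)) + 42 * thP (thP f) + 22 * thP f + 4 * f)
      - Polynomial.X ^ 2 *
        (128 * thP (thP (thP f)) + 384 * thP (thP f) + 352 * thP f + 96 * f) := by
    unfold Lop DD
    ring
  have c28 : (28 : R[X]) = Polynomial.C 28 := (map_ofNat Polynomial.C 28).symm
  have c42 : (42 : R[X]) = Polynomial.C 42 := (map_ofNat Polynomial.C 42).symm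
  have c22 : (22 : R[X]) = Polynomial.C 22 := (map_ofNat Polynomial.C 22).symm
  have c4 : (4 : R[X]) = Polynomial.C 4 := (map_ofNat Polynomial.C 4).symm
  have c128 : (128 : R[X]) = Polynomial.C 128 := (map_ofNat Polynomial.C 128).symm
  have c384 : (384 : R[X]) = Polynomial.C 384 := (map_ofNat Polynomial.C 384).symm
  have c352 : (352 : R[X]) = Polynomial.C 352 := (map_ofNat Polynomial.C 352).symm
  have c96 : (96 : R[X]) = Polynomial.C 96 := (map_ofNat Polynomial.C 96).symm
  rw [h, c28, c42, c22, c4, c128, c384, c352, c96]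
  rw [Polynomial.coeff_sub, Polynomial.coeff_sub]
  have e1 : (n + 2) = (n + 1) + 1 := rfl
  have k1 : ∀ g : R[X], (Polynomial.X * g).coeff (n + 2) = g.coeff (n + 1) := by
    intro g
    rw [e1, Polynomial.coeff_X_mul]
  have k2 : ∀ g : R[X], (Polynomial.X ^ 2 * g).coeff (n + 2) = g.coeff n := by
    intro g
    rw [pow_two, mul_assoc, k1, Polynomial.coeff_X_mul]
  rw [k1, k2]
  simp only [Polynomial.coeff_add, Polynomial.coeff_C_mul, coeff_thP]
  unfold Q1 Q2
  push_cast
  ring

theorem coeff_Lop_zero {R : Type*} [CommRing R] (f : R[X]) :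
    (Lop f).coeff 0 = 0 := by
  have h : Lop f = thP (thP (thP f))
      - Polynomial.X * (28 * thP (thP (thP f)) + 42 * thP (thP f) + 22 * thP f + 4 * f)
      - Polynomial.X *
        (Polynomial.X *
          (128 * thP (thP (thP f)) + 384 * thP (thP f) + 352 * thP f + 96 * f)) := by
    unfold Lop DD
    ring
  rw [h, Polynomial.coeff_sub, Polynomial.coeff_sub, Polynomial.coeff_X_mul_zero,
    Polynomial.coeff_X_mul_zero, coeff_thP]
  simp

theorem coeff_Lop_one {R : Type*} [CommRing R] (f : R[X]) :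
    (Lop f).coeff 1 = f.coeff 1 - 4 * f.coeff 0 := by
  have h : Lop f = thP (thP (thP f))
      - Polynomial.X * (28 * thP (thP (thP f)) + 42 * thP (thP f) + 22 * thP f + 4 * f)
      - Polynomial.X *
        (Polynomial.X *
          (128 * thP (thP (thP f)) + 384 * thP (thP f) + 352 * thP f + 96 * f)) := by
    unfold Lop DD
    ring
  have c28 : (28 : R[X]) = Polynomial.C 28 := (map_ofNat Polynomial.C 28).symm
  have c42 : (42 : R[X]) = Polynomial.C 42 := (map_ofNat Polynomial.C 42).symm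
  have c22 : (22 : R[X]) = Polynomial.C 22 := (map_ofNat Polynomial.C 22).symm
  have c4 : (4 : R[X]) = Polynomial.C 4 := (map_ofNat Polynomial.C 4).symm
  have k1 : ∀ g : R[X], (Polynomial.X * g).coeff 1 = g.coeff 0 := by
    intro g
    rw [show (1 : ℕ) = 0 + 1 from rfl, Polynomial.coeff_X_mul]
  rw [h, Polynomial.coeff_sub, Polynomial.coeff_sub, k1, k1, Polynomial.coeff_X_mul_zero,
    c28, c42, c22, c4]
  simp only [Polynomial.coeff_add, Polynomial.coeff_C_mul, coeff_thP]
  push_cast
  ring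

theorem coeff_Lop'_add_two {R : Type*} [CommRing R] (f : R[X]) (n : ℕ) :
    (Lop' f).coeff (n + 2) = 3 * ((n : R) + 2) ^ 2 * f.coeff (n + 2)
      - Q1' ((n : R) + 2) * f.coeff (n + 1) - Q2' ((n : R) + 2) * f.coeff n := by
  have h : Lop' f = 3 * thP (thP f)
      - Polynomial.X * (84 * thP (thP f) + 84 * thP f + 22 * f)
      - Polynomial.X ^ 2 *
        (384 * thP (thP f) + 768 * thP f + 352 * f) := by
    unfold Lop' DD
    ring
  have c3 : (3 : R[X]) = Polynomial.C 3 := (map_ofNat Polynomial.C 3).symm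
  have c84 : (84 : R[X]) = Polynomial.C 84 := (map_ofNat Polynomial.C 84).symm
  have c22 : (22 : R[X]) = Polynomial.C 22 := (map_ofNat Polynomial.C 22).symm
  have c384 : (384 : R[X]) = Polynomial.C 384 := (map_ofNat Polynomial.C 384).symm
  have c768 : (768 : R[X]) = Polynomial.C 768 := (map_ofNat Polynomial.C 768).symm
  have c352 : (352 : R[X]) = Polynomial.C 352 := (map_ofNat Polynomial.C 352).symm
  rw [h, c3, c84, c22, c384, c768, c352]
  rw [Polynomial.coeff_sub, Polynomial.coeff_sub]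
  have e1 : (n + 2) = (n + 1) + 1 := rfl
  have k1 : ∀ g : R[X], (Polynomial.X * g).coeff (n + 2) = g.coeff (n + 1) := by
    intro g
    rw [e1, Polynomial.coeff_X_mul]
  have k2 : ∀ g : R[X], (Polynomial.X ^ 2 * g).coeff (n + 2) = g.coeff n := by
    intro g
    rw [pow_two, mul_assoc, k1, Polynomial.coeff_X_mul]
  rw [k1, k2]
  simp only [Polynomial.coeff_add, Polynomial.coeff_C_mul, coeff_thP]
  unfold Q1' Q2'
  push_cast
  ring

theorem coeff_Lop'_zero {R : Type*} [CommRing R] (f : R[X]) :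
    (Lop' f).coeff 0 = 0 := by
  have h : Lop' f = Polynomial.C 3 * thP (thP f)
      - Polynomial.X * (84 * thP (thP f) + 84 * thP f + 22 * f)
      - Polynomial.X *
        (Polynomial.X * (384 * thP (thP f) + 768 * thP f + 352 * f)) := by
    have c3 : (3 : R[X]) = Polynomial.C 3 := (map_ofNat Polynomial.C 3).symm
    rw [← c3]
    unfold Lop' DD
    ring
  rw [h, Polynomial.coeff_sub, Polynomial.coeff_sub, Polynomial.coeff_X_mul_zero,
    Polynomial.coeff_X_mul_zero, Polynomial.coeff_C_mul, coeff_thP]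
  simp

theorem coeff_Lop'_one {R : Type*} [CommRing R] (f : R[X]) :
    (Lop' f).coeff 1 = 3 * f.coeff 1 - 22 * f.coeff 0 := by
  have h : Lop' f = 3 * thP (thP f)
      - Polynomial.X * (84 * thP (thP f) + 84 * thP f + 22 * f)
      - Polynomial.X *
        (Polynomial.X * (384 * thP (thP f) + 768 * thP f + 352 * f)) := by
    unfold Lop' DD
    ring
  have c3 : (3 : R[X]) = Polynomial.C 3 := (map_ofNat Polynomial.C 3).symm
  have c84 : (84 : R[X]) = Polynomial.C 84 := (map_ofNat Polynomial.C 84).symm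
  have c22 : (22 : R[X]) = Polynomial.C 22 := (map_ofNat Polynomial.C 22).symm
  have k1 : ∀ g : R[X], (Polynomial.X * g).coeff 1 = g.coeff 0 := by
    intro g
    rw [show (1 : ℕ) = 0 + 1 from rfl, Polynomial.coeff_X_mul]
  rw [h, Polynomial.coeff_sub, Polynomial.coeff_sub, k1, k1, Polynomial.coeff_X_mul_zero,
    c3, c84, c22]
  simp only [Polynomial.coeff_add, Polynomial.coeff_C_mul, coeff_thP]
  push_cast
  ring

theorem coeff_F1 (R : Type*) [CommRing R] (p n : ℕ) :
    (F1 R p).coeff n = if n < p then (aa n : R) else 0 := by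
  unfold F1
  rw [Polynomial.finsetSum_coeff]
  simp only [Polynomial.coeff_monomial]
  rw [Finset.sum_ite_eq']
  simp

theorem aa0 : aa 0 = 1 := by decide

theorem aa1 : aa 1 = 4 := by decide

/-- recursion over any ring -/
theorem rec_ring (hrec : G_REC) (R : Type*) [CommRing R] (n : ℕ) :
    ((n : R) + 2) ^ 3 * (aa (n + 2) : R) =
      Q1 ((n : R) + 2) * (aa (n + 1) : R) + Q2 ((n : R) + 2) * (aa n : R) := by
  have h := hrec n
  have h2 := congrArg (Int.cast : ℤ → R) h
  unfold q1 q2 at h2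
  push_cast at h2
  rw [h2]
  unfold Q1 Q2
  ring

section
variable (p : ℕ) [Fact p.Prime]

/-- the sequence `b` -/
def bb : ℕ → ℤ_[p]
  | 0 => 0
  | 1 => 10
  | (i + 2) => Ring.inverse (((i : ℤ_[p]) + 2) ^ 3) *
      (Q1 ((i : ℤ_[p]) + 2) * bb (i + 1) + Q1' ((i : ℤ_[p]) + 2) * (aa (i + 1) : ℤ_[p])
        + Q2 ((i : ℤ_[p]) + 2) * bb i + Q2' ((i : ℤ_[p]) + 2) * (aa i : ℤ_[p])
        - 3 * ((i : ℤ_[p]) + 2) ^ 2 * (aa (i + 2) : ℤ_[p]))

theorem isUnit_nat {n : ℕ} (h : ¬ p ∣ n) : IsUnit (n : ℤ_[p]) := by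
  rw [PadicInt.isUnit_iff]
  have h1 := PadicInt.norm_le_one (n : ℤ_[p])
  rcases lt_or_eq_of_le h1 with h2 | h2
  · exfalso
    have h3 : ‖((n : ℤ) : ℤ_[p])‖ < 1 := by push_cast; exact h2
    rw [PadicInt.norm_int_lt_one_iff_dvd] at h3
    exact h (by exact_mod_cast h3)
  · exact h2

theorem bb_rec {i : ℕ} (h : i + 2 < p) :
    ((i : ℤ_[p]) + 2) ^ 3 * bb p (i + 2) =
      (Q1 ((i : ℤ_[p]) + 2) * bb p (i + 1) + Q1' ((i : ℤ_[p]) + 2) * (aa (i + 1) : ℤ_[p])
        + Q2 ((i : ℤ_[p]) + 2) * bb p i + Q2' ((i : ℤ_[p]) + 2) * (aa i : ℤ_[p])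
        - 3 * ((i : ℤ_[p]) + 2) ^ 2 * (aa (i + 2) : ℤ_[p])) := by
  have hu : IsUnit (((i : ℤ_[p]) + 2) ^ 3) := by
    apply IsUnit.pow
    have := isUnit_nat p (n := i + 2) (fun hd => by
      have := Nat.le_of_dvd (by omega) hd
      omega)
    push_cast at this
    exact this
  rw [bb, ← mul_assoc, Ring.mul_inverse_cancel _ hu, one_mul]

theorem two_main {p : ℕ} [Fact p.Prime] (hrec : G_REC) (hapj : G_APJ) (hp : 3 < p) :
    ∀ i : ℕ, i < p → ∀ j : ℕ, ∃ c : ℤ_[p],
      (aa (i + p * j) : ℤ_[p]) = (aa j : ℤ_[p]) * (aa i : ℤ_[p])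
        + (p : ℤ_[p]) * (j : ℤ_[p]) * (aa j : ℤ_[p]) * bb p i + (p : ℤ_[p]) ^ 2 * c := by
  obtain ⟨ha1, ha2, -⟩ := hapj p hp
  have hzero : ∀ j : ℕ, ∃ c : ℤ_[p],
      (aa (p * j) : ℤ_[p]) = (aa j : ℤ_[p]) + (p : ℤ_[p]) ^ 2 * c := by
    intro j
    obtain ⟨c, hc⟩ := ha1 j
    refine ⟨(c : ℤ_[p]), ?_⟩
    have := congrArg (Int.cast : ℤ → ℤ_[p]) hc
    push_cast at this
    linear_combination this
  have key : ∀ i : ℕ, (i < p → ∀ j : ℕ, ∃ c : ℤ_[p],
      (aa (i + p * j) : ℤ_[p]) = (aa j : ℤ_[p]) * (aa i : ℤ_[p])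
        + (p : ℤ_[p]) * (j : ℤ_[p]) * (aa j : ℤ_[p]) * bb p i + (p : ℤ_[p]) ^ 2 * c) ∧
      (i + 1 < p → ∀ j : ℕ, ∃ c : ℤ_[p],
      (aa (i + 1 + p * j) : ℤ_[p]) = (aa j : ℤ_[p]) * (aa (i + 1) : ℤ_[p])
        + (p : ℤ_[p]) * (j : ℤ_[p]) * (aa j : ℤ_[p]) * bb p (i + 1)
          + (p : ℤ_[p]) ^ 2 * c) := by
    intro i
    induction i with
    | zero =>
      refine ⟨fun _ j => ?_, fun _ j => ?_⟩
      · obtain ⟨c, hc⟩ := hzero j
        refine ⟨c, ?_⟩
        rw [zero_add, hc, aa0, bb]
        push_cast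
        ring
      · rcases Nat.eq_zero_or_pos j with rfl | hj
        · refine ⟨0, ?_⟩
          rw [aa0]
          simp
        · obtain ⟨j', rfl⟩ : ∃ j', j = j' + 1 := ⟨j - 1, by omega⟩
          obtain ⟨c, hc⟩ := hzero (j' + 1)
          obtain ⟨d, hd⟩ := ha2 j'
          have hpj : 1 ≤ p * (j' + 1) := by
            have : 0 < p * (j' + 1) := by positivity
            omega
          obtain ⟨m, hm⟩ : ∃ m, p * (j' + 1) = m + 1 := ⟨p * (j' + 1) - 1, by omega⟩
          have hr := rec_ring hrec ℤ_[p] m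
          have hd' : (aa m : ℤ_[p]) = (p : ℤ_[p]) * (d : ℤ_[p]) := by
            have : aa m = p * d := by
              rw [← hd, hm]
              rfl
            rw [this]
            push_cast
            ring
          have hmc : (m : ℤ_[p]) = (p : ℤ_[p]) * ((j' : ℤ_[p]) + 1) - 1 := by
            have := congrArg (Nat.cast : ℕ → ℤ_[p]) hm
            push_cast at this
            linear_combination -this
          rw [hm] at hc
          have e : 0 + 1 + p * (j' + 1) = m + 2 := by omega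
          rw [e]
          set P := (p : ℤ_[p]) with hP
          set J := (j' : ℤ_[p]) + 1 with hJ
          set A := (aa (j' + 1) : ℤ_[p]) with hA
          have hu : IsUnit (((m : ℤ_[p]) + 2) ^ 3) := by
            apply IsUnit.pow
            have := isUnit_nat p (n := m + 2) (fun hdv => by
              have h1 : p ∣ p * (j' + 1) + 1 := by
                rw [hm]
                exact hdv
              have h2 : p ∣ 1 := (Nat.dvd_add_right (Dvd.intro _ rfl)).mp h1
              have := Nat.le_of_dvd (by omega) h2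
              omega)
            push_cast at this
            exact this
          have hdvd : P ^ 2 ∣ ((m : ℤ_[p]) + 2) ^ 3 *
              ((aa (m + 2) : ℤ_[p]) - (A * 4 + P * J * A * 10)) := by
            rw [mul_sub, hr, hc, hd', hmc]
            unfold Q1 Q2
            refine ⟨-6 * A * J ^ 3 * P - 10 * A * J ^ 4 * P ^ 2 + 22 * J * P * c - 32 * J * (d :
              ℤ_[p]) + 42 * J ^ 2 * P ^ 2 * c + 128 * J ^ 3 * P ^ 2 * (d : ℤ_[p])
              + 28 * J ^ 3 * P ^ 3 * c + 4 * c, ?_⟩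
            ring
          rw [hu.dvd_mul_left] at hdvd
          obtain ⟨c', hc'⟩ := hdvd
          refine ⟨c', ?_⟩
          rw [show (0 + 1) = 1 from rfl, aa1, bb]
          push_cast
          linear_combination hc'
    | succ i ih =>
      obtain ⟨ih1, ih2⟩ := ih
      refine ⟨ih2, fun hi j => ?_⟩
      obtain ⟨c1, h1⟩ := ih1 (by omega) j
      obtain ⟨c2, h2⟩ := ih2 (by omega) j
      have hr := rec_ring hrec ℤ_[p] (i + p * j)
      have hr0 := rec_ring hrec ℤ_[p] i
      have hb := bb_rec p (i := i) (by omega)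
      have e1 : i + 1 + 1 + p * j = i + p * j + 2 := by ring
      have e2 : i + 1 + p * j = i + p * j + 1 := by ring
      rw [e1]
      rw [e2] at h2
      rw [h1, h2] at hr
      push_cast at hr
      have hu : IsUnit (((i : ℤ_[p]) + (p : ℤ_[p]) * (j : ℤ_[p]) + 2) ^ 3) := by
        apply IsUnit.pow
        have := isUnit_nat p (n := i + p * j + 2) (fun hdv => by
          have h1 : p ∣ p * j + (i + 2) := by
            have e : i + p * j + 2 = p * j + (i + 2) := by ring
            rwa [e] at hdv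
          have h2 : p ∣ (i + 2) := (Nat.dvd_add_right (Dvd.intro _ rfl)).mp h1
          have := Nat.le_of_dvd (by omega) h2
          omega)
        push_cast at this
        exact this
      set P := (p : ℤ_[p]) with hP
      set J := (j : ℤ_[p]) with hJ
      set A := (aa j : ℤ_[p]) with hA
      set I := (i : ℤ_[p]) with hI
      set a0 := (aa i : ℤ_[p])
      set a1 := (aa (i + 1) : ℤ_[p])
      set a2 := (aa (i + 2) : ℤ_[p])
      set b0 := bb p i
      set b1 := bb p (i + 1)
      set b2 := bb p (i + 2)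
      have hdvd : P ^ 2 ∣ (I + P * J + 2) ^ 3 *
          ((aa (i + p * j + 2) : ℤ_[p]) - (A * a2 + P * J * A * b2)) := by
        unfold Q1 Q2 at hr hr0 hb
        unfold Q1' Q2' at hb
        refine ⟨384 * A * I * J ^ 2 * a0 + 84 * A * I * J ^ 2 * a1 - 3 * A * I * J ^ 2 * a2 + 768 * A
          * I * J ^ 2 * b0 + 252 * A * I * J ^ 2 * b1 - 12 * A * I * J ^ 2 * b2 + 384
          * A * I * J ^ 3 * P * b0 + 84 * A * I * J ^ 3 * P * b1 - 3 * A * I * J ^ 3 *
          P * b2 + 384 * A * I ^ 2 * J ^ 2 * b0 + 84 * A * I ^ 2 * J ^ 2 * b1 - 3 * A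
          * I ^ 2 * J ^ 2 * b2 + 384 * A * J ^ 2 * a0 + 126 * A * J ^ 2 * a1 - 6 * A *
          J ^ 2 * a2 + 352 * A * J ^ 2 * b0 + 190 * A * J ^ 2 * b1 - 12 * A * J ^ 2 *
          b2 + 128 * A * J ^ 3 * P * a0 + 28 * A * J ^ 3 * P * a1 - A * J ^ 3 * P * a2
          + 384 * A * J ^ 3 * P * b0 + 126 * A * J ^ 3 * P * b1 - 6 * A * J ^ 3 * P *
          b2 + 128 * A * J ^ 4 * P ^ 2 * b0 + 28 * A * J ^ 4 * P ^ 2 * b1 - A * J ^ 4
          * P ^ 2 * b2 + 768 * I * J * P * c1 + 252 * I * J * P * c2 + 384 * I * J ^ 2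
          * P ^ 2 * c1 + 84 * I * J ^ 2 * P ^ 2 * c2 + 352 * I * c1 + 190 * I * c2 +
          384 * I ^ 2 * J * P * c1 + 84 * I ^ 2 * J * P * c2 + 384 * I ^ 2 * c1 + 126
          * I ^ 2 * c2 + 128 * I ^ 3 * c1 + 28 * I ^ 3 * c2 + 352 * J * P * c1 + 190 *
          J * P * c2 + 384 * J ^ 2 * P ^ 2 * c1 + 126 * J ^ 2 * P ^ 2 * c2 + 128 * J ^
          3 * P ^ 3 * c1 + 28 * J ^ 3 * P ^ 3 * c2 + 96 * c1 + 96 * c2, ?_⟩
        linear_combination hr - A * hr0 - P * J * A * hb
      rw [hu.dvd_mul_left] at hdvd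
      obtain ⟨c', hc'⟩ := hdvd
      refine ⟨c', ?_⟩
      linear_combination hc'
  exact fun i => (key i).1

/-- the polynomial `B` -/
def BB : ℤ_[p][X] := ∑ n ∈ Finset.range p, Polynomial.monomial n (bb p n)

theorem coeff_BB (n : ℕ) : (BB p).coeff n = if n < p then bb p n else 0 := by
  unfold BB
  rw [Polynomial.finsetSum_coeff]
  simp only [Polynomial.coeff_monomial]
  rw [Finset.sum_ite_eq']
  simp

theorem natDegree_BB (hp : 3 < p) : (BB p).natDegree < p := by
  have h : (BB p).natDegree ≤ p - 1 := by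
    rw [Polynomial.natDegree_le_iff_coeff_eq_zero]
    intro n hn
    rw [coeff_BB, if_neg (by omega)]
  omega

theorem lop1 {p : ℕ} [Fact p.Prime] (hrec : G_REC) (hapj : G_APJ) (hp : 3 < p) :
    Lop (F1 (ZMod p) p) = 0 := by
  obtain ⟨-, ha2, -⟩ := hapj p hp
  have hpp : ((p : ℕ) : ZMod p) = 0 := by simp
  ext n
  rw [Polynomial.coeff_zero]
  match n with
  | 0 => exact coeff_Lop_zero _
  | 1 =>
    rw [coeff_Lop_one, coeff_F1, coeff_F1, if_pos (by omega), if_pos (by omega), aa0, aa1]
    push_cast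
    ring
  | (n + 2) =>
    rw [coeff_Lop_add_two, coeff_F1, coeff_F1, coeff_F1]
    have hr := rec_ring hrec (ZMod p) n
    by_cases h1 : n + 2 < p
    · rw [if_pos h1, if_pos (by omega), if_pos (by omega)]
      linear_combination hr
    · rw [if_neg h1]
      by_cases h2 : n + 1 < p
      · rw [if_pos h2, if_pos (by omega)]
        have e : n + 2 = p := by omega
        have e' : (n : ZMod p) + 2 = 0 := by
          have := congrArg (Nat.cast : ℕ → ZMod p) e
          rw [hpp] at this
          push_cast at this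
          exact this
        rw [e'] at hr ⊢
        linear_combination hr
      · rw [if_neg h2]
        by_cases h3 : n < p
        · rw [if_pos h3]
          have e : n + 1 = p := by omega
          have hd := ha2 0
          rw [show p * (0 + 1) - 1 = n by omega] at hd
          have hz : (aa n : ZMod p) = 0 := by
            rwa [ZMod.natCast_eq_zero_iff]
          rw [hz]
          ring
        · rw [if_neg h3]
          ring

theorem lop2 {p : ℕ} [Fact p.Prime] (hrec : G_REC) (hapj : G_APJ) (hp : 3 < p) :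
    Lop ((BB p).map (PadicInt.toZMod (p := p))) + Lop' (F1 (ZMod p) p) = 0 := by
  have htw := two_main hrec hapj hp
  obtain ⟨-, ha2, -⟩ := hapj p hp
  have hpp : ((p : ℕ) : ZMod p) = 0 := by simp
  have hB : ∀ n, ((BB p).map (PadicInt.toZMod (p := p))).coeff n =
      if n < p then PadicInt.toZMod (bb p n) else 0 := by
    intro n
    rw [Polynomial.coeff_map, coeff_BB]
    split_ifs <;> simp
  have hQ1 : ∀ x : ℤ_[p], PadicInt.toZMod (Q1 x) = Q1 (PadicInt.toZMod x) := by
    intro x
    unfold Q1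
    simp [map_sub, map_add, map_mul, map_pow, map_ofNat]
  have hQ2 : ∀ x : ℤ_[p], PadicInt.toZMod (Q2 x) = Q2 (PadicInt.toZMod x) := by
    intro x
    unfold Q2
    simp [map_sub, map_add, map_mul, map_pow, map_ofNat]
  have hQ1' : ∀ x : ℤ_[p], PadicInt.toZMod (Q1' x) = Q1' (PadicInt.toZMod x) := by
    intro x
    unfold Q1'
    simp [map_sub, map_add, map_mul, map_pow, map_ofNat]
  have hQ2' : ∀ x : ℤ_[p], PadicInt.toZMod (Q2' x) = Q2' (PadicInt.toZMod x) := by
    intro x
    unfold Q2'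
    simp [map_sub, map_add, map_mul, map_pow, map_ofNat]
  ext n
  rw [Polynomial.coeff_zero, Polynomial.coeff_add]
  match n with
  | 0 => rw [coeff_Lop_zero, coeff_Lop'_zero, add_zero]
  | 1 =>
    rw [coeff_Lop_one, coeff_Lop'_one, coeff_F1, coeff_F1, hB, hB, if_pos (by omega),
      if_pos (by omega), if_pos (by omega), if_pos (by omega), aa0, aa1, bb, bb, map_zero,
      map_ofNat]
    push_cast
    ring
  | (n + 2) =>
    rw [coeff_Lop_add_two, coeff_Lop'_add_two, coeff_F1, coeff_F1, coeff_F1, hB, hB, hB]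
    by_cases h1 : n + 2 < p
    · rw [if_pos h1, if_pos (by omega), if_pos (by omega), if_pos h1, if_pos (by omega),
        if_pos (by omega)]
      have hb := congrArg (PadicInt.toZMod (p := p)) (bb_rec p h1)
      simp only [map_sub, map_add, map_mul, map_pow, map_ofNat, map_natCast, hQ1, hQ2, hQ1',
        hQ2'] at hb
      linear_combination hb
    · rw [if_neg h1, if_neg h1]
      by_cases h2 : n + 1 < p
      · rw [if_pos h2, if_pos (by omega), if_pos h2, if_pos (by omega)]
        have e : n + 2 = p := by omega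
        have e' : (n : ZMod p) + 2 = 0 := by
          have := congrArg (Nat.cast : ℕ → ZMod p) e
          rw [hpp] at this
          push_cast at this
          exact this
        -- the relation at `2p`
        obtain ⟨c1, h1'⟩ := htw n (by omega) 1
        obtain ⟨c2, h2'⟩ := htw (n + 1) (by omega) 1
        have hr := rec_ring hrec ℤ_[p] (n + p * 1)
        have hr0 := rec_ring hrec ℤ_[p] n
        have e2 : n + 1 + p * 1 = n + p * 1 + 1 := by ring
        rw [e2] at h2'
        rw [h1', h2'] at hr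
        have en : (n : ℤ_[p]) = (p : ℤ_[p]) - 2 := by
          have := congrArg (Nat.cast : ℕ → ℤ_[p]) e
          push_cast at this
          linear_combination this
        push_cast at hr
        rw [en, aa1] at hr
        rw [en] at hr0
        have hE : (p : ℤ_[p]) ^ 2 ∣ (p : ℤ_[p]) * ((4 : ℤ_[p]) *
            (Q1 (p : ℤ_[p]) * bb p (n + 1) + Q1' (p : ℤ_[p]) * (aa (n + 1) : ℤ_[p])
              + Q2 (p : ℤ_[p]) * bb p n + Q2' (p : ℤ_[p]) * (aa n : ℤ_[p]))) := by
          unfold Q1 Q2 at hr hr0 ⊢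
          unfold Q1' Q2'
          push_cast at hr hr0
          set P := (p : ℤ_[p])
          set ap := (aa (n + p * 1 + 2) : ℤ_[p])
          set a2 := (aa (n + 2) : ℤ_[p])
          set a1 := (aa (n + 1) : ℤ_[p])
          set a0 := (aa n : ℤ_[p])
          set b1 := bb p (n + 1)
          set b0 := bb p n
          refine ⟨-2048 * P * a0 - 448 * P * a1 - 4 * P * a2 + 8 * P * ap + 4608 * P * b0 + 504 * P *
            b1 - 704 * P * c1 - 44 * P * c2 - 3584 * P ^ 2 * b0 - 784 * P ^ 2 * b1 +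
            1536 * P ^ 2 * c1 + 168 * P ^ 2 * c2 - 1024 * P ^ 3 * c1 - 224 * P ^ 3 *
            c2 + 1536 * a0 + 168 * a1 - 1408 * b0 - 88 * b1 + 96 * c1 + 4 * c2, ?_⟩
          linear_combination (-1 : ℤ_[p]) * hr + 4 * hr0
        have hE2 : (p : ℤ_[p]) ∣ (4 : ℤ_[p]) *
            (Q1 (p : ℤ_[p]) * bb p (n + 1) + Q1' (p : ℤ_[p]) * (aa (n + 1) : ℤ_[p])
              + Q2 (p : ℤ_[p]) * bb p n + Q2' (p : ℤ_[p]) * (aa n : ℤ_[p])) := by
          have hp0 : (p : ℤ_[p]) ≠ 0 := by
            exact_mod_cast (Fact.out : p.Prime).ne_zero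
          rw [pow_two] at hE
          exact (mul_dvd_mul_iff_left hp0).mp hE
        obtain ⟨w, hw⟩ := hE2
        have hw2 := congrArg (PadicInt.toZMod (p := p)) hw
        simp only [map_sub, map_add, map_mul, map_pow, map_ofNat, map_natCast, hQ1, hQ2, hQ1',
          hQ2', hpp, zero_mul] at hw2
        have h4 : (4 : ZMod p) ≠ 0 := by
          intro h
          have : ((4 : ℕ) : ZMod p) = 0 := by exact_mod_cast h
          rw [ZMod.natCast_eq_zero_iff] at this
          have h5 : p ≤ 4 := Nat.le_of_dvd (by norm_num) this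
          have h6 : p = 4 := by omega
          have := (Fact.out : p.Prime)
          rw [h6] at this
          exact absurd this (by norm_num)
        have hw3 := (mul_eq_zero.mp hw2).resolve_left h4
        rw [e']
        linear_combination -hw3
      · rw [if_neg h2, if_neg h2]
        by_cases h3 : n < p
        · rw [if_pos h3, if_pos h3]
          have e : n + 1 = p := by omega
          have hd := ha2 0
          rw [show p * (0 + 1) - 1 = n by omega] at hd
          have hz : (aa n : ZMod p) = 0 := by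
            rwa [ZMod.natCast_eq_zero_iff]
          have en : (n : ZMod p) = -1 := by
            have := congrArg (Nat.cast : ℕ → ZMod p) e
            rw [hpp] at this
            push_cast at this
            linear_combination this
          rw [hz, en]
          unfold Q2
          ring
        · rw [if_neg h3, if_neg h3]
          ring

end

/-- TWOA -/
theorem twoa : G_REC → G_APJ → G_TWOA := by
  intro hrec hapj p _ hp
  refine ⟨BB p, natDegree_BB p hp, ?_, ?_, lop1 hrec hapj hp, lop2 hrec hapj hp⟩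
  · rw [coeff_BB, if_pos (by omega), bb]
  · intro i hi j
    obtain ⟨c, hc⟩ := two_main hrec hapj hp i hi j
    refine ⟨c, ?_⟩
    rw [coeff_BB, if_pos hi]
    linear_combination hc

end

end Pool.Agent.Helper43.Fr.PkTwoa
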